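import Pool.Agent.Helper25.SH.Run

/-!
# Project SHARP (MP_b21509_co), zone II: coverings of a region of `ℝ³` by sets `{p ≥ 0}`, `p` quadratic

A quadratic polynomial in three variables is a difference `p - q` of two polynomials with natural coefficients
(`H3`). A cell is a list of such pairs (all of them have to be `≥ 0`). The kernel checks, with the runner of
helper25 (bisection tree in one natural number), that every point of a box lies in one of the cells of a table.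
The test of a leaf is the mean value form at the centre of the box (exact for sums of concave squares).
-/

set_option autoImplicit false

namespace Pool.Agent.Helper15.SH

open Pool.Agent.Helper25.SH

/-- a quadratic polynomial with natural coefficients -/
structure H3 where
  k : ℕ
  a : ℕ
  x : ℕ
  y : ℕ
  aa : ℕ
  xx : ℕ
  yy : ℕ
  ax : ℕ
  ay : ℕ
  xy : ℕ

/-- the value at a real point -/
def H3.ev (h : H3) (A X Y : ℝ) : ℝ :=
  h.k + h.a * A + h.x * X + h.y * Y + h.aa * A ^ 2 + h.xx * X ^ 2 + h.yy * Y ^ 2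
    + h.ax * A * X + h.ay * A * Y + h.xy * X * Y

/-- `n² · value` at the point `(A, X, Y) / n` -/
def val (n k a x y aa xx yy ax ay xy A X Y : ℕ) : ℕ :=
  Nat.add (Nat.mul n (Nat.add (Nat.mul n k) (Nat.add (Nat.mul a A) (Nat.add (Nat.mul x X) (Nat.mul y Y)))))
    (Nat.add (Nat.mul A (Nat.add (Nat.mul aa A) (Nat.add (Nat.mul ax X) (Nat.mul ay Y))))
      (Nat.add (Nat.mul X (Nat.add (Nat.mul xx X) (Nat.mul xy Y))) (Nat.mul yy (Nat.mul Y Y))))

/-- derivative in one variable: `n a + 2 aa A + ax X + ay Y` -/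
def dd (n a aa A ax X ay Y : ℕ) : ℕ :=
  Nat.add (Nat.mul n a) (Nat.add (Nat.mul (Nat.mul 2 aa) A) (Nat.add (Nat.mul ax X) (Nat.mul ay Y)))

/-- `|a - b|` -/
def ab (a b : ℕ) : ℕ := Nat.add (Nat.sub a b) (Nat.sub b a)

/-- the test: `p - q ≥ 0` on the box with the centre `(A, X, Y) / n` and the half widths `(r, s, t) / n` -/
def test (p q : H3) (n A X Y r s t : ℕ) : Bool :=
  match p, q with
  | ⟨k, a, x, y, aa, xx, yy, ax, ay, xy⟩, ⟨k', a', x', y', aa', xx', yy', ax', ay', xy'⟩ =>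
    Nat.ble
      (Nat.add (val n k' a' x' y' aa' xx' yy' ax' ay' xy' A X Y)
        (Nat.add (Nat.mul r (ab (dd n a aa A ax X ay Y) (dd n a' aa' A ax' X ay' Y)))
          (Nat.add (Nat.mul s (ab (dd n x xx X ax A xy Y) (dd n x' xx' X ax' A xy' Y)))
            (Nat.add (Nat.mul t (ab (dd n y yy Y ay A xy X) (dd n y' yy' Y ay' A xy' X)))
              (Nat.add (Nat.mul aa' (Nat.mul r r)) (Nat.add (Nat.mul xx' (Nat.mul s s))
                (Nat.add (Nat.mul yy' (Nat.mul t t)) (Nat.add (Nat.mul (Nat.add ax ax') (Nat.mul r s))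
                  (Nat.add (Nat.mul (Nat.add ay ay') (Nat.mul r t))
                    (Nat.mul (Nat.add xy xy') (Nat.mul s t)))))))))))
      (val n k a x y aa xx yy ax ay xy A X Y)

theorem ab_cast (a b : ℕ) : ((ab a b : ℕ) : ℝ) = |(a : ℝ) - b| := by
  unfold ab
  rw [Nat.add_eq, Nat.sub_eq, Nat.sub_eq]
  rcases le_total a b with h | h
  · rw [Nat.sub_eq_zero_of_le h, zero_add, Nat.cast_sub h, abs_of_nonpos (by
      have : (a : ℝ) ≤ b := by exact_mod_cast h
      linarith)]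
    ring
  · rw [Nat.sub_eq_zero_of_le h, add_zero, Nat.cast_sub h, abs_of_nonneg (by
      have : (b : ℝ) ≤ a := by exact_mod_cast h
      linarith)]

private lemma lin_bd {c d r : ℝ} (h : |d| ≤ r) : -(r * |c|) ≤ c * d := by
  have h1 : |c * d| ≤ |c| * r := by
    rw [abs_mul]
    exact mul_le_mul_of_nonneg_left h (abs_nonneg c)
  have h2 := neg_abs_le (c * d)
  linarith

private lemma sq_bd {c c' d r : ℝ} (hc : 0 ≤ c) (hc' : 0 ≤ c') (h : |d| ≤ r) :
    -(c' * (r * r)) ≤ (c - c') * d ^ 2 := by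
  have h0 : 0 ≤ |d| := abs_nonneg d
  have h1 : d ^ 2 ≤ r * r := by
    rw [← sq_abs]
    nlinarith
  nlinarith [mul_nonneg hc (sq_nonneg d), mul_le_mul_of_nonneg_left h1 hc']

private lemma mx_bd {c c' d e r s : ℝ} (hc : 0 ≤ c) (hc' : 0 ≤ c') (h : |d| ≤ r) (h' : |e| ≤ s) :
    -((c + c') * (r * s)) ≤ (c - c') * (d * e) := by
  have hr : 0 ≤ r := le_trans (abs_nonneg d) h
  have h1 : |d * e| ≤ r * s := by
    rw [abs_mul]
    exact mul_le_mul h h' (abs_nonneg e) hr
  have h2 : |c - c'| ≤ c + c' := by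
    rw [abs_le]
    constructor <;> linarith
  have h3 : |(c - c') * (d * e)| ≤ (c + c') * (r * s) := by
    rw [abs_mul]
    exact mul_le_mul h2 h1 (abs_nonneg _) (by linarith)
  have h4 := neg_abs_le ((c - c') * (d * e))
  linarith

theorem test_sound (p q : H3) (n A X Y r s t : ℕ) (hn : 0 < n) (h : test p q n A X Y r s t = true)
    (α ξ η : ℝ) (h1 : |n * α - A| ≤ r) (h2 : |n * ξ - X| ≤ s) (h3 : |n * η - Y| ≤ t) :
    0 ≤ p.ev α ξ η - q.ev α ξ η := by
  obtain ⟨k, a, x, y, aa, xx, yy, ax, ay, xy⟩ := p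
  obtain ⟨k', a', x', y', aa', xx', yy', ax', ay', xy'⟩ := q
  unfold test at h
  dsimp only at h
  have h := Nat.le_of_ble_eq_true h
  have hR : (((Nat.add (val n k' a' x' y' aa' xx' yy' ax' ay' xy' A X Y)
        (Nat.add (Nat.mul r (ab (dd n a aa A ax X ay Y) (dd n a' aa' A ax' X ay' Y)))
          (Nat.add (Nat.mul s (ab (dd n x xx X ax A xy Y) (dd n x' xx' X ax' A xy' Y)))
            (Nat.add (Nat.mul t (ab (dd n y yy Y ay A xy X) (dd n y' yy' Y ay' A xy' X)))
              (Nat.add (Nat.mul aa' (Nat.mul r r)) (Nat.add (Nat.mul xx' (Nat.mul s s))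
                (Nat.add (Nat.mul yy' (Nat.mul t t)) (Nat.add (Nat.mul (Nat.add ax ax') (Nat.mul r s))
                  (Nat.add (Nat.mul (Nat.add ay ay') (Nat.mul r t))
                    (Nat.mul (Nat.add xy xy') (Nat.mul s t)))))))))) : ℕ)) : ℝ)
      ≤ ((val n k a x y aa xx yy ax ay xy A X Y : ℕ) : ℝ) := by exact_mod_cast h
  simp only [Nat.add_eq, Nat.mul_eq, Nat.cast_add, Nat.cast_mul, ab_cast] at hR
  have e1 : ∀ m c1 c2 c3 c4 c5 c6 c7 : ℕ, ((dd m c1 c2 c3 c4 c5 c6 c7 : ℕ) : ℝ) =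
      m * c1 + 2 * c2 * c3 + c4 * c5 + c6 * c7 := by
    intro m c1 c2 c3 c4 c5 c6 c7
    unfold dd
    simp only [Nat.add_eq, Nat.mul_eq, Nat.cast_add, Nat.cast_mul, Nat.cast_ofNat]
    ring
  have e2 : ∀ c0 c1 c2 c3 c4 c5 c6 c7 c8 c9 : ℕ, ((val n c0 c1 c2 c3 c4 c5 c6 c7 c8 c9 A X Y : ℕ) : ℝ) =
      n * (n * c0 + (c1 * A + (c2 * X + c3 * Y))) + (A * (c4 * A + (c7 * X + c8 * Y))
        + (X * (c5 * X + c9 * Y) + c6 * (Y * Y))) := by
    intro c0 c1 c2 c3 c4 c5 c6 c7 c8 c9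
    unfold val
    simp only [Nat.add_eq, Nat.mul_eq, Nat.cast_add, Nat.cast_mul]
  rw [e1, e1, e1, e1, e1, e1, e2, e2] at hR
  have b1 := lin_bd (c := ((n * a + 2 * aa * A + ax * X + ay * Y : ℝ)) - (n * a' + 2 * aa' * A + ax' * X + ay' * Y)) h1
  have b2 := lin_bd (c := ((n * x + 2 * xx * X + ax * A + xy * Y : ℝ)) - (n * x' + 2 * xx' * X + ax' * A + xy' * Y)) h2
  have b3 := lin_bd (c := ((n * y + 2 * yy * Y + ay * A + xy * X : ℝ)) - (n * y' + 2 * yy' * Y + ay' * A + xy' * X)) h3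
  have c1 := sq_bd (c := (aa : ℝ)) (c' := (aa' : ℝ)) (Nat.cast_nonneg _) (Nat.cast_nonneg _) h1
  have c2 := sq_bd (c := (xx : ℝ)) (c' := (xx' : ℝ)) (Nat.cast_nonneg _) (Nat.cast_nonneg _) h2
  have c3 := sq_bd (c := (yy : ℝ)) (c' := (yy' : ℝ)) (Nat.cast_nonneg _) (Nat.cast_nonneg _) h3
  have d1 := mx_bd (c := (ax : ℝ)) (c' := (ax' : ℝ)) (Nat.cast_nonneg _) (Nat.cast_nonneg _) h1 h2
  have d2 := mx_bd (c := (ay : ℝ)) (c' := (ay' : ℝ)) (Nat.cast_nonneg _) (Nat.cast_nonneg _) h1 h3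
  have d3 := mx_bd (c := (xy : ℝ)) (c' := (xy' : ℝ)) (Nat.cast_nonneg _) (Nat.cast_nonneg _) h2 h3
  have hn' : (0 : ℝ) < n := by exact_mod_cast hn
  have idt : (n : ℝ) ^ 2 * ((H3.ev ⟨k, a, x, y, aa, xx, yy, ax, ay, xy⟩ α ξ η)
      - H3.ev ⟨k', a', x', y', aa', xx', yy', ax', ay', xy'⟩ α ξ η) =
      (((n : ℝ) * (n * k + (a * A + (x * X + y * Y))) + (A * (aa * A + (ax * X + ay * Y))
        + (X * (xx * X + xy * Y) + yy * (Y * Y)))) -
       ((n : ℝ) * (n * k' + (a' * A + (x' * X + y' * Y))) + (A * (aa' * A + (ax' * X + ay' * Y))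
        + (X * (xx' * X + xy' * Y) + yy' * (Y * Y)))))
      + ((n * a + 2 * aa * A + ax * X + ay * Y : ℝ) - (n * a' + 2 * aa' * A + ax' * X + ay' * Y)) * (n * α - A)
      + ((n * x + 2 * xx * X + ax * A + xy * Y : ℝ) - (n * x' + 2 * xx' * X + ax' * A + xy' * Y)) * (n * ξ - X)
      + ((n * y + 2 * yy * Y + ay * A + xy * X : ℝ) - (n * y' + 2 * yy' * Y + ay' * A + xy' * X)) * (n * η - Y)
      + ((aa : ℝ) - aa') * (n * α - A) ^ 2 + ((xx : ℝ) - xx') * (n * ξ - X) ^ 2
      + ((yy : ℝ) - yy') * (n * η - Y) ^ 2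
      + ((ax : ℝ) - ax') * ((n * α - A) * (n * ξ - X)) + ((ay : ℝ) - ay') * ((n * α - A) * (n * η - Y))
      + ((xy : ℝ) - xy') * ((n * ξ - X) * (n * η - Y)) := by
    unfold H3.ev
    dsimp only
    ring
  have key : 0 ≤ (n : ℝ) ^ 2 * ((H3.ev ⟨k, a, x, y, aa, xx, yy, ax, ay, xy⟩ α ξ η)
      - H3.ev ⟨k', a', x', y', aa', xx', yy', ax', ay', xy'⟩ α ξ η) := by
    rw [idt]
    linarith only [hR, b1, b2, b3, c1, c2, c3, d1, d2, d3]
  exact nonneg_of_mul_nonneg_right key (by positivity)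

/-- all the polynomials of a cell -/
def testAll (c : List (H3 × H3)) (n A X Y r s t : ℕ) : Bool :=
  c.rec true fun pq _ ih => cond (test pq.1 pq.2 n A X Y r s t) ih false

theorem testAll_sound (n A X Y r s t : ℕ) (hn : 0 < n) (α ξ η : ℝ) (h1 : |n * α - A| ≤ r)
    (h2 : |n * ξ - X| ≤ s) (h3 : |n * η - Y| ≤ t) (c : List (H3 × H3)) (h : testAll c n A X Y r s t = true) :
    ∀ pq ∈ c, 0 ≤ pq.1.ev α ξ η - pq.2.ev α ξ η := by
  induction c with
  | nil => intro pq hpq; exact absurd hpq (by simp)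
  | cons a l ih =>
    have e : testAll (a :: l) n A X Y r s t = cond (test a.1 a.2 n A X Y r s t) (testAll l n A X Y r s t) false := rfl
    rw [e] at h
    cases ht : test a.1 a.2 n A X Y r s t with
    | false =>
      rw [ht] at h
      exact absurd h (by simp)
    | true =>
      rw [ht] at h
      intro pq hpq
      rcases List.mem_cons.1 hpq with rfl | hpq
      · exact test_sound _ _ n A X Y r s t hn ht α ξ η h1 h2 h3
      · exact ih h pq hpq

/-- the entry number `d` -/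
def nth (T : List (List (H3 × H3))) (d : ℕ) : Option (List (H3 × H3)) :=
  T.rec (fun _ => none) (fun c _ ih d => cond (Nat.beq d 0) (some c) (ih (Nat.sub d 1))) d

theorem nth_mem (T : List (List (H3 × H3))) (d : ℕ) (c : List (H3 × H3)) (h : nth T d = some c) : c ∈ T := by
  induction T generalizing d with
  | nil => exact absurd h (by simp [nth])
  | cons a l ih =>
    have e : nth (a :: l) d = cond (Nat.beq d 0) (some a) (nth l (Nat.sub d 1)) := rfl
    rw [e] at h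
    cases hd : Nat.beq d 0 with
    | true =>
      rw [hd] at h
      simp only [cond_true, Option.some.injEq] at h
      rw [h]
      exact List.mem_cons_self
    | false =>
      rw [hd] at h
      exact List.mem_cons_of_mem _ (ih _ h)

/-- the leaf: the data are the number of the cell; `n = 2 N` -/
def leaf (T : List (List (H3 × H3))) (n _op d x u y v a p _e _q : ℕ) : Bool :=
  match nth T d with
  | none => false
  | some c => testAll c n (Nat.add (Nat.mul 2 x) u) (Nat.add (Nat.mul 2 y) v) (Nat.add (Nat.mul 2 a) p) u v p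

/-- the point lies in one of the cells -/
def Hit (T : List (List (H3 × H3))) (A X Y : ℝ) : Prop :=
  ∃ c ∈ T, ∀ pq ∈ c, 0 ≤ pq.1.ev A X Y - pq.2.ev A X Y

private lemma mid {n : ℕ} {N x : ℝ} {l w : ℕ} (hN : (n : ℝ) = 2 * N) (h1 : (l : ℝ) ≤ N * x)
    (h2 : N * x ≤ l + w) : |n * x - ((Nat.add (Nat.mul 2 l) w : ℕ) : ℝ)| ≤ w := by
  rw [Nat.add_eq, Nat.mul_eq]
  push_cast
  rw [hN, abs_le]
  constructor <;> linarith

theorem leaf_sound (T : List (List (H3 × H3))) (n : ℕ) (hn : 0 < n) (N : ℝ) (hN : (n : ℝ) = 2 * N)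
    (op d x u y v a p e q : ℕ) (h : leaf T n op d x u y v a p e q = true) :
    AllIn N (fun A X Y _ => Hit T A X Y) ⟨x, u, y, v, a, p, e, q⟩ := by
  intro α ξ η _ g1 g2 g3 g4 g5 g6 _ _
  unfold leaf at h
  cases hc : nth T d with
  | none =>
    rw [hc] at h
    exact absurd h (by simp)
  | some c =>
    rw [hc] at h
    exact ⟨c, nth_mem T d c hc, testAll_sound n _ _ _ u v p hn α ξ η (mid hN g1 g2) (mid hN g3 g4)
      (mid hN g5 g6) c h⟩

/-- **the covering**: one kernel computation -/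
theorem cover (T : List (List (H3 × H3))) (N L fuel code M1 M2 M3 : ℕ) (hN : 0 < N)
    (h : run (leaf T (Nat.mul 2 N)) L L L L fuel [⟨0, M1, 0, M2, 0, M3, 0, 0⟩] code = true)
    (A X Y : ℝ) (a0 : 0 ≤ A) (a1 : N * A ≤ M1) (x0 : 0 ≤ X) (x1 : N * X ≤ M2) (y0 : 0 ≤ Y) (y1 : N * Y ≤ M3) :
    Hit T A X Y := by
  have hn : 0 < Nat.mul 2 N := by
    rw [Nat.mul_eq]
    omega
  have hN' : ((Nat.mul 2 N : ℕ) : ℝ) = 2 * (N : ℝ) := by
    rw [Nat.mul_eq]
    push_cast
    ring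
  have hp : (0 : ℝ) ≤ N := Nat.cast_nonneg _
  refine run_sound (leaf T (Nat.mul 2 N)) L L L L N (fun A X Y _ => Hit T A X Y)
    (fun op d x u y v a p e q h => leaf_sound T _ hn N hN' op d x u y v a p e q h) fuel _ code h _
    List.mem_cons_self A X Y 0 ?_ ?_ ?_ ?_ ?_ ?_ ?_ ?_
  · simpa using mul_nonneg hp a0
  · simpa using a1
  · simpa using mul_nonneg hp x0
  · simpa using x1
  · simpa using mul_nonneg hp y0
  · simpa using y1
  · simp
  · simp

end Pool.Agent.Helper15.SH
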