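import Pool.Agent.Helper15.SH.Cov

/-!
# Project SHARP (MP_b21509_co), zone II: the two sectors

`cover1`: `A ≥ 0`, `|B| ≤ 2 A`, `0 ≤ Im B ≤ √3 Re B`, `A² + |B|² ≤ R2 / 10⁴`; variables `(A, Re B, Im B)`.
`cover2`: `B > 2 |A|`, `0 ≤ Im A ≤ (727/1000) Re A`, `|A|² + B² ≤ R2 / 10⁴`; variables `(B, Re A, Im A)`.
Zone I is `|A| + 2 |B| ≤ 1/4`. The table of a sector is: zone I, the complements of the four (three) conditions,
and then the list `C` of the polynomials of the certificates.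
-/

set_option autoImplicit false

namespace Pool.Agent.Helper15.SH

open Pool.Agent.Helper25.SH

/-- the values of a list of pairs -/
def pv (pq : H3 × H3) (A X Y : ℝ) : ℝ := pq.1.ev A X Y - pq.2.ev A X Y

/-- sector 1: zone I and the complements of the conditions -/
def dom1 (R2 : ℕ) : List (List (H3 × H3)) :=
  [[(⟨1, 0, 0, 0, 0, 0, 0, 0, 0, 0⟩, ⟨0, 4, 0, 0, 0, 0, 0, 0, 0, 0⟩),
    (⟨1, 0, 0, 0, 16, 0, 0, 0, 0, 0⟩, ⟨0, 8, 0, 0, 0, 64, 64, 0, 0, 0⟩)],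
   [(⟨0, 0, 0, 0, 0, 1000000, 1000000, 0, 0, 0⟩, ⟨1, 0, 0, 0, 4000000, 0, 0, 0, 0, 0⟩)],
   [(⟨0, 0, 0, 0, 0, 0, 1000000, 0, 0, 0⟩, ⟨1, 0, 0, 0, 0, 3000000, 0, 0, 0, 0⟩)],
   [(⟨0, 0, 0, 0, 1000000, 1000000, 1000000, 0, 0, 0⟩, ⟨100 * R2 + 1, 0, 0, 0, 0, 0, 0, 0, 0, 0⟩)]]

/-- sector 2 -/
def dom2 (R2 : ℕ) : List (List (H3 × H3)) :=
  [[(⟨1, 0, 0, 0, 0, 0, 0, 0, 0, 0⟩, ⟨0, 8, 0, 0, 0, 0, 0, 0, 0, 0⟩),
    (⟨1, 0, 0, 0, 64, 0, 0, 0, 0, 0⟩, ⟨0, 16, 0, 0, 0, 16, 16, 0, 0, 0⟩)],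
   [(⟨0, 0, 0, 0, 0, 4000000, 4000000, 0, 0, 0⟩, ⟨1, 0, 0, 0, 1000000, 0, 0, 0, 0, 0⟩)],
   [(⟨0, 0, 0, 1000000, 0, 0, 0, 0, 0, 0⟩, ⟨1, 0, 727000, 0, 0, 0, 0, 0, 0, 0⟩)],
   [(⟨0, 0, 0, 0, 1000000, 1000000, 1000000, 0, 0, 0⟩, ⟨100 * R2 + 1, 0, 0, 0, 0, 0, 0, 0, 0, 0⟩)]]

/-- the whole table -/
def tab (D : List (List (H3 × H3))) (C : List (H3 × H3)) : List (List (H3 × H3)) :=
  D ++ C.map fun pq => [pq]

private lemma root_le {N M R2 : ℕ} {x : ℝ} (hM : R2 * N ^ 2 ≤ 10000 * M ^ 2) (hx : 10000 * x ^ 2 ≤ R2) :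
    (N : ℝ) * x ≤ M := by
  have h1 : ((R2 * N ^ 2 : ℕ) : ℝ) ≤ ((10000 * M ^ 2 : ℕ) : ℝ) := by exact_mod_cast hM
  push_cast at h1
  have h2 : ((N : ℝ) * x) ^ 2 ≤ (M : ℝ) ^ 2 := by
    nlinarith [mul_le_mul_of_nonneg_right hx (sq_nonneg (N : ℝ))]
  exact abs_le_of_sq_le_sq' h2 (Nat.cast_nonneg _) |>.2

/-- SECTOR 1 -/
theorem cover1 (C : List (H3 × H3)) (R2 N L fuel code M : ℕ) (hN : 0 < N) (hM : R2 * N ^ 2 ≤ 10000 * M ^ 2)
    (h : run (leaf (tab (dom1 R2) C) (Nat.mul 2 N)) L L L L fuel [⟨0, M, 0, M, 0, M, 0, 0⟩] code = true)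
    (A : ℝ) (B : ℂ) (hA : 0 ≤ A) (hB : ‖B‖ ≤ 2 * A) (i0 : 0 ≤ B.im) (i1 : B.im ≤ Real.sqrt 3 * B.re)
    (hr : 10000 * (A ^ 2 + ‖B‖ ^ 2) ≤ R2) :
    A + 2 * ‖B‖ ≤ 1 / 4 ∨ ∃ pq ∈ C, 0 ≤ pv pq A B.re B.im := by
  have s3 : 0 < Real.sqrt 3 := Real.sqrt_pos.2 (by norm_num)
  have s3' : Real.sqrt 3 ^ 2 = 3 := Real.sq_sqrt (by norm_num)
  have x0 : 0 ≤ B.re := by
    by_contra hc
    push Not at hc
    nlinarith [mul_pos s3 (neg_pos.2 hc)]
  have hn : ‖B‖ ^ 2 = B.re ^ 2 + B.im ^ 2 := by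
    rw [← Complex.normSq_eq_norm_sq, Complex.normSq_apply]
    ring
  have hn0 : 0 ≤ ‖B‖ := norm_nonneg B
  have c1 : B.re ^ 2 + B.im ^ 2 ≤ 4 * A ^ 2 := by
    rw [← hn]
    nlinarith
  have c2 : B.im ^ 2 ≤ 3 * B.re ^ 2 := by
    have : B.im ^ 2 ≤ (Real.sqrt 3 * B.re) ^ 2 := by
      apply pow_le_pow_left₀ i0 i1
    rw [mul_pow, s3'] at this
    exact this
  have c3 : 10000 * (A ^ 2 + (B.re ^ 2 + B.im ^ 2)) ≤ R2 := by
    rw [← hn]
    exact hr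
  obtain ⟨c, hc, hall⟩ := cover _ N L fuel code M M M hN h A B.re B.im hA
    (root_le hM (by nlinarith [sq_nonneg B.re, sq_nonneg B.im])) x0
    (root_le hM (by nlinarith [sq_nonneg A, sq_nonneg B.im])) i0
    (root_le hM (by nlinarith [sq_nonneg A, sq_nonneg B.re]))
  unfold tab at hc
  rw [List.mem_append] at hc
  rcases hc with hc | hc
  · left
    simp only [dom1, List.mem_cons, List.not_mem_nil, or_false] at hc
    rcases hc with rfl | rfl | rfl | rfl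
    · have e1 := hall _ List.mem_cons_self
      have e2 := hall _ (List.mem_cons_of_mem _ List.mem_cons_self)
      simp only [H3.ev, Nat.cast_zero, Nat.cast_one, Nat.cast_ofNat, zero_mul, add_zero, zero_add] at e1 e2
      have e3 : (8 * ‖B‖) ^ 2 ≤ (1 - 4 * A) ^ 2 := by
        rw [mul_pow, hn]
        nlinarith
      have e4 := abs_le_of_sq_le_sq' e3 (by linarith)
      linarith [e4.2]
    · exfalso
      have e1 := hall _ List.mem_cons_self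
      simp only [H3.ev, Nat.cast_zero, Nat.cast_one, Nat.cast_ofNat, zero_mul, add_zero, zero_add] at e1
      nlinarith
    · exfalso
      have e1 := hall _ List.mem_cons_self
      simp only [H3.ev, Nat.cast_zero, Nat.cast_one, Nat.cast_ofNat, zero_mul, add_zero, zero_add] at e1
      nlinarith
    · exfalso
      have e1 := hall _ List.mem_cons_self
      simp only [H3.ev, Nat.cast_zero, Nat.cast_one, Nat.cast_ofNat, zero_mul, add_zero, zero_add] at e1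
      push_cast at e1
      nlinarith
  · right
    rw [List.mem_map] at hc
    obtain ⟨pq, hpq, rfl⟩ := hc
    exact ⟨pq, hpq, hall pq List.mem_cons_self⟩

/-- SECTOR 2 -/
theorem cover2 (C : List (H3 × H3)) (R2 N L fuel code M : ℕ) (hN : 0 < N) (hM : R2 * N ^ 2 ≤ 10000 * M ^ 2)
    (h : run (leaf (tab (dom2 R2) C) (Nat.mul 2 N)) L L L L fuel [⟨0, M, 0, M, 0, M, 0, 0⟩] code = true)
    (B : ℝ) (A : ℂ) (hB : 2 * ‖A‖ ≤ B) (i0 : 0 ≤ A.im) (i1 : A.im ≤ 727 / 1000 * A.re)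
    (hr : 10000 * (‖A‖ ^ 2 + B ^ 2) ≤ R2) :
    ‖A‖ + 2 * B ≤ 1 / 4 ∨ ∃ pq ∈ C, 0 ≤ pv pq B A.re A.im := by
  have x0 : 0 ≤ A.re := by linarith
  have hn : ‖A‖ ^ 2 = A.re ^ 2 + A.im ^ 2 := by
    rw [← Complex.normSq_eq_norm_sq, Complex.normSq_apply]
    ring
  have hn0 : 0 ≤ ‖A‖ := norm_nonneg A
  have hB0 : 0 ≤ B := by linarith
  have c1 : 4 * (A.re ^ 2 + A.im ^ 2) ≤ B ^ 2 := by
    rw [← hn]
    nlinarith
  have c3 : 10000 * ((A.re ^ 2 + A.im ^ 2) + B ^ 2) ≤ R2 := by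
    rw [← hn]
    exact hr
  obtain ⟨c, hc, hall⟩ := cover _ N L fuel code M M M hN h B A.re A.im hB0
    (root_le hM (by nlinarith [sq_nonneg A.re, sq_nonneg A.im])) x0
    (root_le hM (by nlinarith [sq_nonneg B, sq_nonneg A.im])) i0
    (root_le hM (by nlinarith [sq_nonneg B, sq_nonneg A.re]))
  unfold tab at hc
  rw [List.mem_append] at hc
  rcases hc with hc | hc
  · left
    simp only [dom2, List.mem_cons, List.not_mem_nil, or_false] at hc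
    rcases hc with rfl | rfl | rfl | rfl
    · have e1 := hall _ List.mem_cons_self
      have e2 := hall _ (List.mem_cons_of_mem _ List.mem_cons_self)
      simp only [H3.ev, Nat.cast_zero, Nat.cast_one, Nat.cast_ofNat, zero_mul, add_zero, zero_add] at e1 e2
      have e3 : (4 * ‖A‖) ^ 2 ≤ (1 - 8 * B) ^ 2 := by
        rw [mul_pow, hn]
        nlinarith
      have e4 := abs_le_of_sq_le_sq' e3 (by linarith)
      linarith [e4.2]
    · exfalso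
      have e1 := hall _ List.mem_cons_self
      simp only [H3.ev, Nat.cast_zero, Nat.cast_one, Nat.cast_ofNat, zero_mul, add_zero, zero_add] at e1
      nlinarith
    · exfalso
      have e1 := hall _ List.mem_cons_self
      simp only [H3.ev, Nat.cast_zero, Nat.cast_one, Nat.cast_ofNat, zero_mul, add_zero, zero_add] at e1
      nlinarith
    · exfalso
      have e1 := hall _ List.mem_cons_self
      simp only [H3.ev, Nat.cast_zero, Nat.cast_one, Nat.cast_ofNat, zero_mul, add_zero, zero_add] at e1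
      push_cast at e1
      nlinarith
  · right
    rw [List.mem_map] at hc
    obtain ⟨pq, hpq, rfl⟩ := hc
    exact ⟨pq, hpq, hall pq List.mem_cons_self⟩

end Pool.Agent.Helper15.SH
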