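import Pool.Agent.Helper15.SH.Cov2

/-!
# Project SHARP (MP_b21509_co), zone II: the two sectors with a general zone I

Zone I is `α |A| + β |B| ≤ γ` with natural numbers `α, β, γ` (for example `20 |A| + 32 |B| ≤ 3`, that is
`|A| + (8/5) |B| ≤ 3/20`; `5 |A| + 8 |B| ≤ 1`; `4 |A| + 8 |B| ≤ 1`). The statements are in real coordinates, in the
form of `Cov1`, `Cov2` of `Helper56/SH/Near.lean`.
-/

set_option autoImplicit false

namespace Pool.Agent.Helper15.SH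

open Pool.Agent.Helper25.SH

/-- sector 1: zone I and the complements of the conditions -/
def dom1z (α β γ R2 : ℕ) : List (List (H3 × H3)) :=
  [[(⟨γ, 0, 0, 0, 0, 0, 0, 0, 0, 0⟩, ⟨0, α, 0, 0, 0, 0, 0, 0, 0, 0⟩),
    (⟨γ ^ 2, 0, 0, 0, α ^ 2, 0, 0, 0, 0, 0⟩, ⟨0, 2 * γ * α, 0, 0, 0, β ^ 2, β ^ 2, 0, 0, 0⟩)],
   [(⟨0, 0, 0, 0, 0, 1000000, 1000000, 0, 0, 0⟩, ⟨1, 0, 0, 0, 4000000, 0, 0, 0, 0, 0⟩)],
   [(⟨0, 0, 0, 0, 0, 0, 1000000, 0, 0, 0⟩, ⟨1, 0, 0, 0, 0, 3000000, 0, 0, 0, 0⟩)],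
   [(⟨0, 0, 0, 0, 1000000, 1000000, 1000000, 0, 0, 0⟩, ⟨100 * R2 + 1, 0, 0, 0, 0, 0, 0, 0, 0, 0⟩)]]

/-- sector 2 -/
def dom2z (α β γ R2 : ℕ) : List (List (H3 × H3)) :=
  [[(⟨γ, 0, 0, 0, 0, 0, 0, 0, 0, 0⟩, ⟨0, β, 0, 0, 0, 0, 0, 0, 0, 0⟩),
    (⟨γ ^ 2, 0, 0, 0, β ^ 2, 0, 0, 0, 0, 0⟩, ⟨0, 2 * γ * β, 0, 0, 0, α ^ 2, α ^ 2, 0, 0, 0⟩)],
   [(⟨0, 0, 0, 0, 0, 4000000, 4000000, 0, 0, 0⟩, ⟨1, 0, 0, 0, 1000000, 0, 0, 0, 0, 0⟩)],
   [(⟨0, 0, 0, 1000000, 0, 0, 0, 0, 0, 0⟩, ⟨1, 0, 727000, 0, 0, 0, 0, 0, 0, 0⟩)],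
   [(⟨0, 0, 0, 0, 1000000, 1000000, 1000000, 0, 0, 0⟩, ⟨100 * R2 + 1, 0, 0, 0, 0, 0, 0, 0, 0, 0⟩)]]

private lemma root_le {N M R2 : ℕ} {x : ℝ} (hM : R2 * N ^ 2 ≤ 10000 * M ^ 2) (hx : 10000 * x ^ 2 ≤ R2) :
    (N : ℝ) * x ≤ M := by
  have h1 : ((R2 * N ^ 2 : ℕ) : ℝ) ≤ ((10000 * M ^ 2 : ℕ) : ℝ) := by exact_mod_cast hM
  push_cast at h1
  have h2 : ((N : ℝ) * x) ^ 2 ≤ (M : ℝ) ^ 2 := by
    nlinarith [mul_le_mul_of_nonneg_right hx (sq_nonneg (N : ℝ))]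
  exact abs_le_of_sq_le_sq' h2 (Nat.cast_nonneg _) |>.2

/-- SECTOR 1 -/
theorem cover1z (C : List (H3 × H3)) (α β γ R2 N L fuel code M : ℕ) (hN : 0 < N)
    (hM : R2 * N ^ 2 ≤ 10000 * M ^ 2)
    (h : run (leaf (tab (dom1z α β γ R2) C) (Nat.mul 2 N)) L L L L fuel [⟨0, M, 0, M, 0, M, 0, 0⟩] code = true)
    (A X Y : ℝ) (hA : 0 ≤ A) (c1 : X ^ 2 + Y ^ 2 ≤ 4 * A ^ 2) (i0 : 0 ≤ Y) (x0 : 0 ≤ X) (c2 : Y ^ 2 ≤ 3 * X ^ 2)
    (hr : 10000 * (A ^ 2 + X ^ 2 + Y ^ 2) ≤ R2) :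
    α * A + β * Real.sqrt (X ^ 2 + Y ^ 2) ≤ γ ∨ ∃ pq ∈ C, 0 ≤ pv pq A X Y := by
  have hs0 : 0 ≤ Real.sqrt (X ^ 2 + Y ^ 2) := Real.sqrt_nonneg _
  have hs : Real.sqrt (X ^ 2 + Y ^ 2) ^ 2 = X ^ 2 + Y ^ 2 := Real.sq_sqrt (by positivity)
  obtain ⟨c, hc, hall⟩ := cover _ N L fuel code M M M hN h A X Y hA
    (root_le hM (by nlinarith [sq_nonneg X, sq_nonneg Y])) x0
    (root_le hM (by nlinarith [sq_nonneg A, sq_nonneg Y])) i0
    (root_le hM (by nlinarith [sq_nonneg A, sq_nonneg X]))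
  unfold tab at hc
  rw [List.mem_append] at hc
  rcases hc with hc | hc
  · left
    simp only [dom1z, List.mem_cons, List.not_mem_nil, or_false] at hc
    rcases hc with rfl | rfl | rfl | rfl
    · have e1 := hall _ List.mem_cons_self
      have e2 := hall _ (List.mem_cons_of_mem _ List.mem_cons_self)
      simp only [H3.ev, Nat.cast_zero, Nat.cast_one, Nat.cast_ofNat, zero_mul, add_zero, zero_add] at e1 e2
      push_cast at e1 e2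
      have e3 : ((β : ℝ) * Real.sqrt (X ^ 2 + Y ^ 2)) ^ 2 ≤ (γ - α * A) ^ 2 := by
        rw [mul_pow, hs]
        nlinarith
      have e4 := abs_le_of_sq_le_sq' e3 (by linarith)
      linarith [e4.2]
    · exfalso
      have e1 := hall _ List.mem_cons_self
      simp only [H3.ev, Nat.cast_zero, Nat.cast_one, Nat.cast_ofNat, zero_mul, add_zero, zero_add] at e1
      nlinarith
    · exfalso
      have e1 := hall _ List.mem_cons_self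
      simp only [H3.ev, Nat.cast_zero, Nat.cast_one, Nat.cast_ofNat, zero_mul, add_zero, zero_add] at e1
      nlinarith
    · exfalso
      have e1 := hall _ List.mem_cons_self
      simp only [H3.ev, Nat.cast_zero, Nat.cast_one, Nat.cast_ofNat, zero_mul, add_zero, zero_add] at e1
      push_cast at e1
      nlinarith
  · right
    rw [List.mem_map] at hc
    obtain ⟨pq, hpq, rfl⟩ := hc
    exact ⟨pq, hpq, hall pq List.mem_cons_self⟩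

/-- SECTOR 2 -/
theorem cover2z (C : List (H3 × H3)) (α β γ R2 N L fuel code M : ℕ) (hN : 0 < N)
    (hM : R2 * N ^ 2 ≤ 10000 * M ^ 2)
    (h : run (leaf (tab (dom2z α β γ R2) C) (Nat.mul 2 N)) L L L L fuel [⟨0, M, 0, M, 0, M, 0, 0⟩] code = true)
    (B X Y : ℝ) (hB : 0 ≤ B) (c1 : 4 * (X ^ 2 + Y ^ 2) ≤ B ^ 2) (i0 : 0 ≤ Y) (i1 : Y ≤ 727 / 1000 * X)
    (hr : 10000 * (B ^ 2 + X ^ 2 + Y ^ 2) ≤ R2) :
    α * Real.sqrt (X ^ 2 + Y ^ 2) + β * B ≤ γ ∨ ∃ pq ∈ C, 0 ≤ pv pq B X Y := by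
  have x0 : 0 ≤ X := by linarith
  have hs0 : 0 ≤ Real.sqrt (X ^ 2 + Y ^ 2) := Real.sqrt_nonneg _
  have hs : Real.sqrt (X ^ 2 + Y ^ 2) ^ 2 = X ^ 2 + Y ^ 2 := Real.sq_sqrt (by positivity)
  obtain ⟨c, hc, hall⟩ := cover _ N L fuel code M M M hN h B X Y hB
    (root_le hM (by nlinarith [sq_nonneg X, sq_nonneg Y])) x0
    (root_le hM (by nlinarith [sq_nonneg B, sq_nonneg Y])) i0
    (root_le hM (by nlinarith [sq_nonneg B, sq_nonneg X]))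
  unfold tab at hc
  rw [List.mem_append] at hc
  rcases hc with hc | hc
  · left
    simp only [dom2z, List.mem_cons, List.not_mem_nil, or_false] at hc
    rcases hc with rfl | rfl | rfl | rfl
    · have e1 := hall _ List.mem_cons_self
      have e2 := hall _ (List.mem_cons_of_mem _ List.mem_cons_self)
      simp only [H3.ev, Nat.cast_zero, Nat.cast_one, Nat.cast_ofNat, zero_mul, add_zero, zero_add] at e1 e2
      push_cast at e1 e2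
      have e3 : ((α : ℝ) * Real.sqrt (X ^ 2 + Y ^ 2)) ^ 2 ≤ (γ - β * B) ^ 2 := by
        rw [mul_pow, hs]
        nlinarith
      have e4 := abs_le_of_sq_le_sq' e3 (by linarith)
      linarith [e4.2]
    · exfalso
      have e1 := hall _ List.mem_cons_self
      simp only [H3.ev, Nat.cast_zero, Nat.cast_one, Nat.cast_ofNat, zero_mul, add_zero, zero_add] at e1
      nlinarith
    · exfalso
      have e1 := hall _ List.mem_cons_self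
      simp only [H3.ev, Nat.cast_zero, Nat.cast_one, Nat.cast_ofNat, zero_mul, add_zero, zero_add] at e1
      nlinarith
    · exfalso
      have e1 := hall _ List.mem_cons_self
      simp only [H3.ev, Nat.cast_zero, Nat.cast_one, Nat.cast_ofNat, zero_mul, add_zero, zero_add] at e1
      push_cast at e1
      nlinarith
  · right
    rw [List.mem_map] at hc
    obtain ⟨pq, hpq, rfl⟩ := hc
    exact ⟨pq, hpq, hall pq List.mem_cons_self⟩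

end Pool.Agent.Helper15.SH
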