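import Pool.Agent.Helper15.SH.Cov3
import Pool.Agent.Helper56.SH.Near

/-!
# Project SHARP (MP_b21509_co), zone II: the coverings in the form of `Helper56/SH/Near.lean`

`p i A B` (`q i A B`) may be any family such that for every pair of the list `C` some `p i` is nonnegative where the
polynomial of the pair is nonnegative.
-/

set_option autoImplicit false

namespace Pool.Agent.Helper15.SH

open Pool.Agent.Helper25.SH

/-- the family of the list itself, sector 1: `p i A B` depends on `Re A`, `Re B`, `Im B` -/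
def p1 (C : List (H3 × H3)) (i : Fin C.length) (A B : ℂ) : ℝ := pv (C.get i) A.re B.re B.im

/-- the family of the list itself, sector 2: `q i A B` depends on `Re B`, `Re A`, `Im A` -/
def p2 (C : List (H3 × H3)) (i : Fin C.length) (A B : ℂ) : ℝ := pv (C.get i) B.re A.re A.im

theorem cov1_of {ι : Type} (R : ℝ) (p : ι → ℂ → ℂ → ℝ) (C : List (H3 × H3))
    (hp : ∀ pq ∈ C, ∃ i, ∀ A X Y : ℝ, 0 ≤ pv pq A X Y → 0 ≤ p i (A : ℂ) ((X : ℂ) + (Y : ℂ) * Complex.I))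
    (α β γ N L fuel code M : ℕ) (hα : 0 < α) (hβ : 5 * β = 8 * α) (hγ : (γ : ℝ) ≤ α * R) (hN : 0 < N)
    (hM : 5329 * N ^ 2 ≤ 10000 * M ^ 2)
    (h : run (leaf (tab (dom1z α β γ 5329) C) (Nat.mul 2 N)) L L L L fuel [⟨0, M, 0, M, 0, M, 0, 0⟩] code = true) :
    Helper56.SH.Cov1 R p := by
  intro A X Y hA c1 i0 x0 c2 hr hz
  rcases cover1z C α β γ 5329 N L fuel code M hN hM h A X Y hA c1 i0 x0 c2 (by push_cast; linarith) with h1 | h1
  · exfalso
    have ha : (0 : ℝ) < α := by exact_mod_cast hα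
    have hb : 5 * (β : ℝ) = 8 * α := by exact_mod_cast hβ
    have h2 := mul_lt_mul_of_pos_left hz ha
    have e : (α : ℝ) * (A + 8 / 5 * Real.sqrt (X ^ 2 + Y ^ 2)) = α * A + β * Real.sqrt (X ^ 2 + Y ^ 2) := by
      have : (β : ℝ) = 8 / 5 * α := by linarith
      rw [this]
      ring
    linarith
  · obtain ⟨pq, hpq, h0⟩ := h1
    obtain ⟨i, hi⟩ := hp pq hpq
    exact ⟨i, hi A X Y h0⟩

theorem cov2_of {ι : Type} (R : ℝ) (q : ι → ℂ → ℂ → ℝ) (C : List (H3 × H3))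
    (hq : ∀ pq ∈ C, ∃ i, ∀ B X Y : ℝ, 0 ≤ pv pq B X Y → 0 ≤ q i ((X : ℂ) + (Y : ℂ) * Complex.I) (B : ℂ))
    (α β γ N L fuel code M : ℕ) (hα : 0 < α) (hβ : 5 * β = 8 * α) (hγ : (γ : ℝ) ≤ α * R) (hN : 0 < N)
    (hM : 5329 * N ^ 2 ≤ 10000 * M ^ 2)
    (h : run (leaf (tab (dom2z α β γ 5329) C) (Nat.mul 2 N)) L L L L fuel [⟨0, M, 0, M, 0, M, 0, 0⟩] code = true) :
    Helper56.SH.Cov2 R q := by
  intro B X Y hB c1 i0 i1 hr hz
  rcases cover2z C α β γ 5329 N L fuel code M hN hM h B X Y hB c1.le i0 i1 (by push_cast; linarith) with h1 | h1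
  · exfalso
    have ha : (0 : ℝ) < α := by exact_mod_cast hα
    have hb : 5 * (β : ℝ) = 8 * α := by exact_mod_cast hβ
    have h2 := mul_lt_mul_of_pos_left hz ha
    have e : (α : ℝ) * (Real.sqrt (X ^ 2 + Y ^ 2) + 8 / 5 * B) = α * Real.sqrt (X ^ 2 + Y ^ 2) + β * B := by
      have : (β : ℝ) = 8 / 5 * α := by linarith
      rw [this]
      ring
    linarith
  · obtain ⟨pq, hpq, h0⟩ := h1
    obtain ⟨i, hi⟩ := hq pq hpq
    exact ⟨i, hi B X Y h0⟩

/-- sector 1, the family of the list -/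
theorem cov1_list (R : ℝ) (C : List (H3 × H3)) (α β γ N L fuel code M : ℕ) (hα : 0 < α) (hβ : 5 * β = 8 * α)
    (hγ : (γ : ℝ) ≤ α * R) (hN : 0 < N) (hM : 5329 * N ^ 2 ≤ 10000 * M ^ 2)
    (h : run (leaf (tab (dom1z α β γ 5329) C) (Nat.mul 2 N)) L L L L fuel [⟨0, M, 0, M, 0, M, 0, 0⟩] code = true) :
    Helper56.SH.Cov1 R (p1 C) := by
  refine cov1_of R (p1 C) C (fun pq hpq => ?_) α β γ N L fuel code M hα hβ hγ hN hM h
  obtain ⟨i, hi⟩ := List.get_of_mem hpq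
  refine ⟨i, fun A X Y h0 => ?_⟩
  unfold p1
  rw [hi]
  simpa using h0

/-- sector 2, the family of the list -/
theorem cov2_list (R : ℝ) (C : List (H3 × H3)) (α β γ N L fuel code M : ℕ) (hα : 0 < α) (hβ : 5 * β = 8 * α)
    (hγ : (γ : ℝ) ≤ α * R) (hN : 0 < N) (hM : 5329 * N ^ 2 ≤ 10000 * M ^ 2)
    (h : run (leaf (tab (dom2z α β γ 5329) C) (Nat.mul 2 N)) L L L L fuel [⟨0, M, 0, M, 0, M, 0, 0⟩] code = true) :
    Helper56.SH.Cov2 R (p2 C) := by
  refine cov2_of R (p2 C) C (fun pq hpq => ?_) α β γ N L fuel code M hα hβ hγ hN hM h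
  obtain ⟨i, hi⟩ := List.get_of_mem hpq
  refine ⟨i, fun B X Y h0 => ?_⟩
  unfold p2
  rw [hi]
  simpa using h0

end Pool.Agent.Helper15.SH
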