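import Pool.Agent.Helper15.SH.Cov4

/-!
# Project SHARP (MP_b21509_co), zone II: one frame, all of zone II

`A ≥ 0`, `0 ≤ arg B ≤ π/3`, without the condition `|B| ≤ 2 |A|`.
-/

set_option autoImplicit false

namespace Pool.Agent.Helper15.SH

open Pool.Agent.Helper25.SH

/-- one frame: zone I and the complements of the conditions -/
def dom0z (α β γ R2 : ℕ) : List (List (H3 × H3)) :=
  [[(⟨γ, 0, 0, 0, 0, 0, 0, 0, 0, 0⟩, ⟨0, α, 0, 0, 0, 0, 0, 0, 0, 0⟩),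
    (⟨γ ^ 2, 0, 0, 0, α ^ 2, 0, 0, 0, 0, 0⟩, ⟨0, 2 * γ * α, 0, 0, 0, β ^ 2, β ^ 2, 0, 0, 0⟩)],
   [(⟨0, 0, 0, 0, 0, 0, 1000000, 0, 0, 0⟩, ⟨1, 0, 0, 0, 0, 3000000, 0, 0, 0, 0⟩)],
   [(⟨0, 0, 0, 0, 1000000, 1000000, 1000000, 0, 0, 0⟩, ⟨100 * R2 + 1, 0, 0, 0, 0, 0, 0, 0, 0, 0⟩)]]

private lemma root_le {N M R2 : ℕ} {x : ℝ} (hM : R2 * N ^ 2 ≤ 10000 * M ^ 2) (hx : 10000 * x ^ 2 ≤ R2) :
    (N : ℝ) * x ≤ M := by
  have h1 : ((R2 * N ^ 2 : ℕ) : ℝ) ≤ ((10000 * M ^ 2 : ℕ) : ℝ) := by exact_mod_cast hM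
  push_cast at h1
  have h2 : ((N : ℝ) * x) ^ 2 ≤ (M : ℝ) ^ 2 := by
    nlinarith [mul_le_mul_of_nonneg_right hx (sq_nonneg (N : ℝ))]
  exact abs_le_of_sq_le_sq' h2 (Nat.cast_nonneg _) |>.2

/-- ONE FRAME -/
theorem cover0z (C : List (H3 × H3)) (α β γ R2 N L fuel code M : ℕ) (hN : 0 < N)
    (hM : R2 * N ^ 2 ≤ 10000 * M ^ 2)
    (h : run (leaf (tab (dom0z α β γ R2) C) (Nat.mul 2 N)) L L L L fuel [⟨0, M, 0, M, 0, M, 0, 0⟩] code = true)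
    (A X Y : ℝ) (hA : 0 ≤ A) (i0 : 0 ≤ Y) (x0 : 0 ≤ X) (c2 : Y ^ 2 ≤ 3 * X ^ 2)
    (hr : 10000 * (A ^ 2 + X ^ 2 + Y ^ 2) ≤ R2) :
    α * A + β * Real.sqrt (X ^ 2 + Y ^ 2) ≤ γ ∨ ∃ pq ∈ C, 0 ≤ pv pq A X Y := by
  have hs0 : 0 ≤ Real.sqrt (X ^ 2 + Y ^ 2) := Real.sqrt_nonneg _
  have hs : Real.sqrt (X ^ 2 + Y ^ 2) ^ 2 = X ^ 2 + Y ^ 2 := Real.sq_sqrt (by positivity)
  obtain ⟨c, hc, hall⟩ := cover _ N L fuel code M M M hN h A X Y hA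
    (root_le hM (by nlinarith [sq_nonneg X, sq_nonneg Y])) x0
    (root_le hM (by nlinarith [sq_nonneg A, sq_nonneg Y])) i0
    (root_le hM (by nlinarith [sq_nonneg A, sq_nonneg X]))
  unfold tab at hc
  rw [List.mem_append] at hc
  rcases hc with hc | hc
  · left
    simp only [dom0z, List.mem_cons, List.not_mem_nil, or_false] at hc
    rcases hc with rfl | rfl | rfl
    · have e1 := hall _ List.mem_cons_self
      have e2 := hall _ (List.mem_cons_of_mem _ List.mem_cons_self)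
      simp only [H3.ev, Nat.cast_zero, Nat.cast_one, Nat.cast_ofNat, zero_mul, add_zero, zero_add] at e1 e2
      push_cast at e1 e2
      have e3 : ((β : ℝ) * Real.sqrt (X ^ 2 + Y ^ 2)) ^ 2 ≤ (γ - α * A) ^ 2 := by
        rw [mul_pow, hs]
        nlinarith
      have e4 := abs_le_of_sq_le_sq' e3 (by linarith)
      linarith [e4.2]
    · exfalso
      have e1 := hall _ List.mem_cons_self
      simp only [H3.ev, Nat.cast_zero, Nat.cast_one, Nat.cast_ofNat, zero_mul, add_zero, zero_add] at e1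
      nlinarith
    · exfalso
      have e1 := hall _ List.mem_cons_self
      simp only [H3.ev, Nat.cast_zero, Nat.cast_one, Nat.cast_ofNat, zero_mul, add_zero, zero_add] at e1
      push_cast at e1
      nlinarith
  · right
    rw [List.mem_map] at hc
    obtain ⟨pq, hpq, rfl⟩ := hc
    exact ⟨pq, hpq, hall pq List.mem_cons_self⟩


/-- the covering outside of zone I in one frame: `B = X + i Y` -/
def Cov0 {ι : Type} (R : ℝ) (p : ι → ℂ → ℂ → ℝ) : Prop := ∀ A X Y : ℝ, 0 ≤ A →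
  0 ≤ Y → 0 ≤ X → Y ^ 2 ≤ 3 * X ^ 2 → A ^ 2 + X ^ 2 + Y ^ 2 < (73 / 100) ^ 2 →
  R < A + 8 / 5 * Real.sqrt (X ^ 2 + Y ^ 2) → ∃ i, 0 ≤ p i (A : ℂ) ((X : ℂ) + (Y : ℂ) * Complex.I)

theorem cov0_of {ι : Type} (R : ℝ) (p : ι → ℂ → ℂ → ℝ) (C : List (H3 × H3))
    (hp : ∀ pq ∈ C, ∃ i, ∀ A X Y : ℝ, 0 ≤ pv pq A X Y → 0 ≤ p i (A : ℂ) ((X : ℂ) + (Y : ℂ) * Complex.I))
    (α β γ N L fuel code M : ℕ) (hα : 0 < α) (hβ : 5 * β = 8 * α) (hγ : (γ : ℝ) ≤ α * R) (hN : 0 < N)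
    (hM : 5329 * N ^ 2 ≤ 10000 * M ^ 2)
    (h : run (leaf (tab (dom0z α β γ 5329) C) (Nat.mul 2 N)) L L L L fuel [⟨0, M, 0, M, 0, M, 0, 0⟩] code = true) :
    Cov0 R p := by
  intro A X Y hA i0 x0 c2 hr hz
  rcases cover0z C α β γ 5329 N L fuel code M hN hM h A X Y hA i0 x0 c2 (by push_cast; linarith) with h1 | h1
  · exfalso
    have ha : (0 : ℝ) < α := by exact_mod_cast hα
    have hb : 5 * (β : ℝ) = 8 * α := by exact_mod_cast hβ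
    have h2 := mul_lt_mul_of_pos_left hz ha
    have e : (α : ℝ) * (A + 8 / 5 * Real.sqrt (X ^ 2 + Y ^ 2)) = α * A + β * Real.sqrt (X ^ 2 + Y ^ 2) := by
      have : (β : ℝ) = 8 / 5 * α := by linarith
      rw [this]
      ring
    linarith
  · obtain ⟨pq, hpq, h0⟩ := h1
    obtain ⟨i, hi⟩ := hp pq hpq
    exact ⟨i, hi A X Y h0⟩

end Pool.Agent.Helper15.SH
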