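import Pool.Agent.Helper15.SH.Cov5

/-!
# Project SHARP (MP_b21509_co), zone II: quadratic polynomials in `(Re A, Im A, Re B, Im B)`, 15 integers over `10⁹`

Order of the coefficients: `1; Re A, Im A, Re B, Im B; (Re A)², (Im A)², (Re B)², (Im B)²; Re A Im A, Re A Re B,
Re A Im B, Im A Re B, Im A Im B, Re B Im B`.
-/

set_option autoImplicit false

namespace Pool.Agent.Helper15.SH

open Pool.Agent.Helper25.SH

/-- the coefficient number `i` -/
def cf (l : List ℤ) (i : ℕ) : ℤ := l.getD i 0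

/-- the numerator -/
noncomputable def q15n (l : List ℤ) (u w x y : ℝ) : ℝ :=
  cf l 0 + cf l 1 * u + cf l 2 * w + cf l 3 * x + cf l 4 * y
    + cf l 5 * u ^ 2 + cf l 6 * w ^ 2 + cf l 7 * x ^ 2 + cf l 8 * y ^ 2
    + cf l 9 * (u * w) + cf l 10 * (u * x) + cf l 11 * (u * y) + cf l 12 * (w * x) + cf l 13 * (w * y)
    + cf l 14 * (x * y)

/-- the polynomial -/
noncomputable def q15 (l : List ℤ) (A B : ℂ) : ℝ := q15n l A.re A.im B.re B.im / 10 ^ 9

/-- positive part -/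
def ps (z : ℤ) : ℕ := z.toNat
/-- negative part -/
def ng (z : ℤ) : ℕ := (-z).toNat

theorem ps_ng (z : ℤ) : ((ps z : ℕ) : ℝ) - ((ng z : ℕ) : ℝ) = z := by
  unfold ps ng
  rcases le_total 0 z with h | h
  · rw [Int.toNat_of_nonpos (by omega : -z ≤ 0), Nat.cast_zero, sub_zero]
    exact_mod_cast Int.toNat_of_nonneg h
  · rw [Int.toNat_of_nonpos h, Nat.cast_zero, zero_sub]
    have : (((-z).toNat : ℤ) : ℝ) = ((-z : ℤ) : ℝ) := by rw [Int.toNat_of_nonneg (by omega)]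
    push_cast at this
    linarith

/-- sector 1: `(u, x, y)`, `w = 0` -/
def c1 (l : List ℤ) : H3 × H3 :=
  (⟨ps (cf l 0), ps (cf l 1), ps (cf l 3), ps (cf l 4), ps (cf l 5), ps (cf l 7), ps (cf l 8), ps (cf l 10),
      ps (cf l 11), ps (cf l 14)⟩,
    ⟨ng (cf l 0), ng (cf l 1), ng (cf l 3), ng (cf l 4), ng (cf l 5), ng (cf l 7), ng (cf l 8), ng (cf l 10),
      ng (cf l 11), ng (cf l 14)⟩)

/-- sector 2: `(x, u, w)`, `y = 0` -/
def c2 (l : List ℤ) : H3 × H3 :=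
  (⟨ps (cf l 0), ps (cf l 3), ps (cf l 1), ps (cf l 2), ps (cf l 7), ps (cf l 5), ps (cf l 6), ps (cf l 10),
      ps (cf l 12), ps (cf l 9)⟩,
    ⟨ng (cf l 0), ng (cf l 3), ng (cf l 1), ng (cf l 2), ng (cf l 7), ng (cf l 5), ng (cf l 6), ng (cf l 10),
      ng (cf l 12), ng (cf l 9)⟩)

theorem pv_c1 (l : List ℤ) (A X Y : ℝ) : pv (c1 l) A X Y = q15n l A 0 X Y := by
  unfold pv c1 H3.ev q15n
  dsimp only
  rw [← ps_ng (cf l 0), ← ps_ng (cf l 1), ← ps_ng (cf l 3), ← ps_ng (cf l 4), ← ps_ng (cf l 5),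
    ← ps_ng (cf l 7), ← ps_ng (cf l 8), ← ps_ng (cf l 10), ← ps_ng (cf l 11), ← ps_ng (cf l 14)]
  ring

theorem pv_c2 (l : List ℤ) (B X Y : ℝ) : pv (c2 l) B X Y = q15n l X Y B 0 := by
  unfold pv c2 H3.ev q15n
  dsimp only
  rw [← ps_ng (cf l 0), ← ps_ng (cf l 3), ← ps_ng (cf l 1), ← ps_ng (cf l 2), ← ps_ng (cf l 7),
    ← ps_ng (cf l 5), ← ps_ng (cf l 6), ← ps_ng (cf l 10), ← ps_ng (cf l 12), ← ps_ng (cf l 9)]
  ring

/-- equality test of pairs, in the kernel -/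
def eqH (p q : H3) : Bool :=
  match p, q with
  | ⟨k, a, x, y, aa, xx, yy, ax, ay, xy⟩, ⟨k', a', x', y', aa', xx', yy', ax', ay', xy'⟩ =>
    Nat.beq k k' && Nat.beq a a' && Nat.beq x x' && Nat.beq y y' && Nat.beq aa aa' && Nat.beq xx xx' &&
      Nat.beq yy yy' && Nat.beq ax ax' && Nat.beq ay ay' && Nat.beq xy xy'

theorem eqH_sound (p q : H3) (h : eqH p q = true) : p = q := by
  obtain ⟨k, a, x, y, aa, xx, yy, ax, ay, xy⟩ := p
  obtain ⟨k', a', x', y', aa', xx', yy', ax', ay', xy'⟩ := q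
  simp only [eqH, Bool.and_eq_true, Nat.beq_eq] at h
  obtain ⟨⟨⟨⟨⟨⟨⟨⟨⟨rfl, rfl⟩, rfl⟩, rfl⟩, rfl⟩, rfl⟩, rfl⟩, rfl⟩, rfl⟩, rfl⟩ := h
  rfl

/-- `C` is the table of the converted lists -/
def same (f : List ℤ → H3 × H3) : List (H3 × H3) → List (List ℤ) → Bool
  | [], [] => true
  | p :: C, l :: ls => eqH p.1 (f l).1 && (eqH p.2 (f l).2 && same f C ls)
  | _, _ => false

theorem same_sound (f : List ℤ → H3 × H3) : ∀ (C : List (H3 × H3)) (ls : List (List ℤ)), same f C ls = true →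
    ∀ p ∈ C, ∃ i : Fin ls.length, p = f (ls.get i) := by
  intro C
  induction C with
  | nil => intro ls _ p hp; exact absurd hp (by simp)
  | cons q C ih =>
    intro ls h p hp
    cases ls with
    | nil => exact absurd h (by simp [same])
    | cons l ls =>
      simp only [same, Bool.and_eq_true] at h
      obtain ⟨h1, h2, h3⟩ := h
      rcases List.mem_cons.1 hp with rfl | hp
      · exact ⟨⟨0, by simp⟩, Prod.ext (eqH_sound _ _ h1) (eqH_sound _ _ h2)⟩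
      · obtain ⟨i, hi⟩ := ih ls h3 p hp
        exact ⟨i.succ, by simpa using hi⟩

/-- SECTOR 1 for a list of records -/
theorem cov1_rec (R : ℝ) (C : List (H3 × H3)) (ls : List (List ℤ)) (hs : same c1 C ls = true)
    (α β γ N L fuel code M : ℕ) (hα : 0 < α) (hβ : 5 * β = 8 * α) (hγ : (γ : ℝ) ≤ α * R) (hN : 0 < N)
    (hM : 5329 * N ^ 2 ≤ 10000 * M ^ 2)
    (h : run (leaf (tab (dom1z α β γ 5329) C) (Nat.mul 2 N)) L L L L fuel [⟨0, M, 0, M, 0, M, 0, 0⟩] code = true) :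
    Helper56.SH.Cov1 R (fun i : Fin ls.length => q15 (ls.get i)) := by
  refine cov1_of R _ C (fun pq hpq => ?_) α β γ N L fuel code M hα hβ hγ hN hM h
  obtain ⟨i, hi⟩ := same_sound c1 C ls hs pq hpq
  refine ⟨i, fun A X Y h0 => ?_⟩
  rw [hi, pv_c1] at h0
  unfold q15
  refine div_nonneg ?_ (by positivity)
  simpa using h0

/-- SECTOR 2 for a list of records -/
theorem cov2_rec (R : ℝ) (C : List (H3 × H3)) (ls : List (List ℤ)) (hs : same c2 C ls = true)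
    (α β γ N L fuel code M : ℕ) (hα : 0 < α) (hβ : 5 * β = 8 * α) (hγ : (γ : ℝ) ≤ α * R) (hN : 0 < N)
    (hM : 5329 * N ^ 2 ≤ 10000 * M ^ 2)
    (h : run (leaf (tab (dom2z α β γ 5329) C) (Nat.mul 2 N)) L L L L fuel [⟨0, M, 0, M, 0, M, 0, 0⟩] code = true) :
    Helper56.SH.Cov2 R (fun i : Fin ls.length => q15 (ls.get i)) := by
  refine cov2_of R _ C (fun pq hpq => ?_) α β γ N L fuel code M hα hβ hγ hN hM h
  obtain ⟨i, hi⟩ := same_sound c2 C ls hs pq hpq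
  refine ⟨i, fun B X Y h0 => ?_⟩
  rw [hi, pv_c2] at h0
  unfold q15
  refine div_nonneg ?_ (by positivity)
  simpa using h0

end Pool.Agent.Helper15.SH
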