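import Pool.Agent.Helper15.SH.Q15

/-!
# Project SHARP (MP_b21509_co), zone II: records with two conditions

A record is a pair `(Q, L)` of integer lists over `10⁹`; the cell is `min (Q, L) ≥ 0`. `L = [1]` means no second
condition.
-/

set_option autoImplicit false

namespace Pool.Agent.Helper15.SH

open Pool.Agent.Helper25.SH

/-- the minimum of the two polynomials of a record -/
noncomputable def q15m (r : List ℤ × List ℤ) (A B : ℂ) : ℝ := min (q15 r.1 A B) (q15 r.2 A B)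

/-- the two pairs of a record, sector 1 -/
def c1m (r : List ℤ × List ℤ) : List (H3 × H3) := [c1 r.1, c1 r.2]
/-- the two pairs of a record, sector 2 -/
def c2m (r : List ℤ × List ℤ) : List (H3 × H3) := [c2 r.1, c2 r.2]

/-- the table -/
def tabm (D C : List (List (H3 × H3))) : List (List (H3 × H3)) := D ++ C

/-- the cell `c` belongs to the record `l` -/
def one (f : List ℤ → H3 × H3) (c : List (H3 × H3)) (l : List ℤ × List ℤ) : Bool :=
  match c with
  | [p, q] => (eqH p.1 (f l.1).1 && eqH p.2 (f l.1).2) && (eqH q.1 (f l.2).1 && eqH q.2 (f l.2).2)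
  | _ => false

theorem one_sound (f : List ℤ → H3 × H3) (c : List (H3 × H3)) (l : List ℤ × List ℤ) (h : one f c l = true) :
    c = [f l.1, f l.2] := by
  match c, h with
  | [a, b], h =>
    have h' : ((eqH a.1 (f l.1).1 && eqH a.2 (f l.1).2) && (eqH b.1 (f l.2).1 && eqH b.2 (f l.2).2)) = true := h
    simp only [Bool.and_eq_true] at h'
    obtain ⟨⟨k1, k2⟩, k3, k4⟩ := h'
    have e1 : a = f l.1 := Prod.ext (eqH_sound _ _ k1) (eqH_sound _ _ k2)
    have e2 : b = f l.2 := Prod.ext (eqH_sound _ _ k3) (eqH_sound _ _ k4)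
    rw [e1, e2]

/-- `C` is the table of the converted records -/
def samem (f : List ℤ → H3 × H3) : List (List (H3 × H3)) → List (List ℤ × List ℤ) → Bool
  | [], [] => true
  | c :: C, l :: ls => one f c l && samem f C ls
  | _, _ => false

theorem samem_sound (f : List ℤ → H3 × H3) : ∀ (C : List (List (H3 × H3))) (ls : List (List ℤ × List ℤ)),
    samem f C ls = true → ∀ c ∈ C, ∃ i : Fin ls.length, c = [f (ls.get i).1, f (ls.get i).2] := by
  intro C
  induction C with
  | nil => intro ls _ p hp; exact absurd hp (by simp)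
  | cons q C ih =>
    intro ls h p hp
    cases ls with
    | nil => exact absurd h (by simp [samem])
    | cons l ls =>
      simp only [samem, Bool.and_eq_true] at h
      obtain ⟨h1, h3⟩ := h
      rcases List.mem_cons.1 hp with rfl | hp
      · exact ⟨⟨0, by simp⟩, one_sound f p l h1⟩
      · obtain ⟨i, hi⟩ := ih ls h3 p hp
        exact ⟨i.succ, by simpa using hi⟩

private lemma root_le {N M R2 : ℕ} {x : ℝ} (hM : R2 * N ^ 2 ≤ 10000 * M ^ 2) (hx : 10000 * x ^ 2 ≤ R2) :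
    (N : ℝ) * x ≤ M := by
  have h1 : ((R2 * N ^ 2 : ℕ) : ℝ) ≤ ((10000 * M ^ 2 : ℕ) : ℝ) := by exact_mod_cast hM
  push_cast at h1
  have h2 : ((N : ℝ) * x) ^ 2 ≤ (M : ℝ) ^ 2 := by
    nlinarith [mul_le_mul_of_nonneg_right hx (sq_nonneg (N : ℝ))]
  exact abs_le_of_sq_le_sq' h2 (Nat.cast_nonneg _) |>.2

/-- the cells of the domain, sector 1 -/
theorem dom1z_sound (α β γ R2 : ℕ) (A X Y : ℝ) (c1 : X ^ 2 + Y ^ 2 ≤ 4 * A ^ 2) (c2 : Y ^ 2 ≤ 3 * X ^ 2)
    (hr : 10000 * (A ^ 2 + X ^ 2 + Y ^ 2) ≤ R2) (c : List (H3 × H3)) (hc : c ∈ dom1z α β γ R2)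
    (hall : ∀ pq ∈ c, 0 ≤ pq.1.ev A X Y - pq.2.ev A X Y) :
    α * A + β * Real.sqrt (X ^ 2 + Y ^ 2) ≤ γ := by
  have hs0 : 0 ≤ Real.sqrt (X ^ 2 + Y ^ 2) := Real.sqrt_nonneg _
  have hs : Real.sqrt (X ^ 2 + Y ^ 2) ^ 2 = X ^ 2 + Y ^ 2 := Real.sq_sqrt (by positivity)
  simp only [dom1z, List.mem_cons, List.not_mem_nil, or_false] at hc
  rcases hc with rfl | rfl | rfl | rfl
  · have e1 := hall _ List.mem_cons_self
    have e2 := hall _ (List.mem_cons_of_mem _ List.mem_cons_self)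
    simp only [H3.ev, Nat.cast_zero, Nat.cast_one, Nat.cast_ofNat, zero_mul, add_zero, zero_add] at e1 e2
    push_cast at e1 e2
    have e3 : ((β : ℝ) * Real.sqrt (X ^ 2 + Y ^ 2)) ^ 2 ≤ (γ - α * A) ^ 2 := by
      rw [mul_pow, hs]
      nlinarith
    have e4 := abs_le_of_sq_le_sq' e3 (by linarith)
    linarith [e4.2]
  · exfalso
    have e1 := hall _ List.mem_cons_self
    simp only [H3.ev, Nat.cast_zero, Nat.cast_one, Nat.cast_ofNat, zero_mul, add_zero, zero_add] at e1
    nlinarith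
  · exfalso
    have e1 := hall _ List.mem_cons_self
    simp only [H3.ev, Nat.cast_zero, Nat.cast_one, Nat.cast_ofNat, zero_mul, add_zero, zero_add] at e1
    nlinarith
  · exfalso
    have e1 := hall _ List.mem_cons_self
    simp only [H3.ev, Nat.cast_zero, Nat.cast_one, Nat.cast_ofNat, zero_mul, add_zero, zero_add] at e1
    push_cast at e1
    nlinarith

/-- the cells of the domain, sector 2 -/
theorem dom2z_sound (α β γ R2 : ℕ) (B X Y : ℝ) (hB : 0 ≤ B) (c1 : 4 * (X ^ 2 + Y ^ 2) ≤ B ^ 2)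
    (i1 : Y ≤ 727 / 1000 * X) (hr : 10000 * (B ^ 2 + X ^ 2 + Y ^ 2) ≤ R2) (c : List (H3 × H3))
    (hc : c ∈ dom2z α β γ R2) (hall : ∀ pq ∈ c, 0 ≤ pq.1.ev B X Y - pq.2.ev B X Y) :
    α * Real.sqrt (X ^ 2 + Y ^ 2) + β * B ≤ γ := by
  have hs0 : 0 ≤ Real.sqrt (X ^ 2 + Y ^ 2) := Real.sqrt_nonneg _
  have hs : Real.sqrt (X ^ 2 + Y ^ 2) ^ 2 = X ^ 2 + Y ^ 2 := Real.sq_sqrt (by positivity)
  simp only [dom2z, List.mem_cons, List.not_mem_nil, or_false] at hc
  rcases hc with rfl | rfl | rfl | rfl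
  · have e1 := hall _ List.mem_cons_self
    have e2 := hall _ (List.mem_cons_of_mem _ List.mem_cons_self)
    simp only [H3.ev, Nat.cast_zero, Nat.cast_one, Nat.cast_ofNat, zero_mul, add_zero, zero_add] at e1 e2
    push_cast at e1 e2
    have e3 : ((α : ℝ) * Real.sqrt (X ^ 2 + Y ^ 2)) ^ 2 ≤ (γ - β * B) ^ 2 := by
      rw [mul_pow, hs]
      nlinarith
    have e4 := abs_le_of_sq_le_sq' e3 (by linarith)
    linarith [e4.2]
  · exfalso
    have e1 := hall _ List.mem_cons_self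
    simp only [H3.ev, Nat.cast_zero, Nat.cast_one, Nat.cast_ofNat, zero_mul, add_zero, zero_add] at e1
    nlinarith
  · exfalso
    have e1 := hall _ List.mem_cons_self
    simp only [H3.ev, Nat.cast_zero, Nat.cast_one, Nat.cast_ofNat, zero_mul, add_zero, zero_add] at e1
    nlinarith
  · exfalso
    have e1 := hall _ List.mem_cons_self
    simp only [H3.ev, Nat.cast_zero, Nat.cast_one, Nat.cast_ofNat, zero_mul, add_zero, zero_add] at e1
    push_cast at e1
    nlinarith

private lemma zone {α β γ : ℕ} {R a s : ℝ} (hα : 0 < α) (hβ : 5 * β = 8 * α) (hγ : (γ : ℝ) ≤ α * R)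
    (hz : R < a + 8 / 5 * s) (h : α * a + β * s ≤ γ) : False := by
  have ha : (0 : ℝ) < α := by exact_mod_cast hα
  have hb : 5 * (β : ℝ) = 8 * α := by exact_mod_cast hβ
  have h2 := mul_lt_mul_of_pos_left hz ha
  have e : (α : ℝ) * (a + 8 / 5 * s) = α * a + β * s := by
    have : (β : ℝ) = 8 / 5 * α := by linarith
    rw [this]
    ring
  linarith

/-- SECTOR 1 for a list of records with two conditions -/
theorem cov1_rec2 (R : ℝ) (C : List (List (H3 × H3))) (ls : List (List ℤ × List ℤ))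
    (hs : samem c1 C ls = true)
    (α β γ N L fuel code M : ℕ) (hα : 0 < α) (hβ : 5 * β = 8 * α) (hγ : (γ : ℝ) ≤ α * R) (hN : 0 < N)
    (hM : 5329 * N ^ 2 ≤ 10000 * M ^ 2)
    (h : run (leaf (tabm (dom1z α β γ 5329) C) (Nat.mul 2 N)) L L L L fuel [⟨0, M, 0, M, 0, M, 0, 0⟩] code = true) :
    Helper56.SH.Cov1 R (fun i : Fin ls.length => q15m (ls.get i)) := by
  intro A X Y hA d1 i0 x0 d2 hr hz
  have hr' : 10000 * (A ^ 2 + X ^ 2 + Y ^ 2) ≤ ((5329 : ℕ) : ℝ) := by push_cast; linarith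
  obtain ⟨c, hc, hall⟩ := cover _ N L fuel code M M M hN h A X Y hA
    (root_le hM (by nlinarith [sq_nonneg X, sq_nonneg Y])) x0
    (root_le hM (by nlinarith [sq_nonneg A, sq_nonneg Y])) i0
    (root_le hM (by nlinarith [sq_nonneg A, sq_nonneg X]))
  unfold tabm at hc
  rw [List.mem_append] at hc
  rcases hc with hc | hc
  · exact (zone hα hβ hγ hz (dom1z_sound α β γ 5329 A X Y d1 d2 hr' c hc hall)).elim
  · obtain ⟨i, hi⟩ := samem_sound c1 C ls hs c hc
    have e1 : 0 ≤ pv (c1 (ls.get i).1) A X Y := hall _ (by rw [hi]; simp)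
    have e2 : 0 ≤ pv (c1 (ls.get i).2) A X Y := hall _ (by rw [hi]; simp)
    rw [pv_c1] at e1 e2
    refine ⟨i, ?_⟩
    unfold q15m
    refine le_min ?_ ?_
    · unfold q15
      refine div_nonneg ?_ (by positivity)
      simpa using e1
    · unfold q15
      refine div_nonneg ?_ (by positivity)
      simpa using e2

/-- SECTOR 2 for a list of records with two conditions -/
theorem cov2_rec2 (R : ℝ) (C : List (List (H3 × H3))) (ls : List (List ℤ × List ℤ))
    (hs : samem c2 C ls = true)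
    (α β γ N L fuel code M : ℕ) (hα : 0 < α) (hβ : 5 * β = 8 * α) (hγ : (γ : ℝ) ≤ α * R) (hN : 0 < N)
    (hM : 5329 * N ^ 2 ≤ 10000 * M ^ 2)
    (h : run (leaf (tabm (dom2z α β γ 5329) C) (Nat.mul 2 N)) L L L L fuel [⟨0, M, 0, M, 0, M, 0, 0⟩] code = true) :
    Helper56.SH.Cov2 R (fun i : Fin ls.length => q15m (ls.get i)) := by
  intro B X Y hB d1 i0 i1 hr hz
  have x0 : 0 ≤ X := by linarith
  have hr' : 10000 * (B ^ 2 + X ^ 2 + Y ^ 2) ≤ ((5329 : ℕ) : ℝ) := by push_cast; linarith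
  obtain ⟨c, hc, hall⟩ := cover _ N L fuel code M M M hN h B X Y hB
    (root_le hM (by nlinarith [sq_nonneg X, sq_nonneg Y])) x0
    (root_le hM (by nlinarith [sq_nonneg B, sq_nonneg Y])) i0
    (root_le hM (by nlinarith [sq_nonneg B, sq_nonneg X]))
  unfold tabm at hc
  rw [List.mem_append] at hc
  rcases hc with hc | hc
  · refine (zone hα hβ hγ hz ?_).elim
    exact dom2z_sound α β γ 5329 B X Y hB d1.le i1 hr' c hc hall
  · obtain ⟨i, hi⟩ := samem_sound c2 C ls hs c hc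
    have e1 : 0 ≤ pv (c2 (ls.get i).1) B X Y := hall _ (by rw [hi]; simp)
    have e2 : 0 ≤ pv (c2 (ls.get i).2) B X Y := hall _ (by rw [hi]; simp)
    rw [pv_c2] at e1 e2
    refine ⟨i, ?_⟩
    unfold q15m
    refine le_min ?_ ?_
    · unfold q15
      refine div_nonneg ?_ (by positivity)
      simpa using e1
    · unfold q15
      refine div_nonneg ?_ (by positivity)
      simpa using e2

end Pool.Agent.Helper15.SH
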